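import Pool.Agent.U208.SI.Stm

/-!
Package NU of project SI (helper208): numerical choices.
-/

set_option autoImplicit false

namespace Pool.Agent.U208.SI

theorem NU_ok : S_NU := by
  intro s r hs hr
  obtain ⟨M, hM⟩ : ∃ M : ℝ, M = 3 + 8 / s + 2 * s ^ 2 / r := ⟨_, rfl⟩
  have h8s : 0 < 8 / s := by positivity
  have hsr : 0 < 2 * s ^ 2 / r := by positivity
  refine ⟨s ^ 2 / 256, min (1 / 16) (Real.exp (-M)), by positivity,
    lt_min (by norm_num) (Real.exp_pos _), min_le_left _ _, ?_⟩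
  intro ε hε hε0
  have h2 : ε ≤ Real.exp (-M) := hε0.trans (min_le_right _ _)
  obtain ⟨L, hLdef⟩ : ∃ L : ℝ, L = Real.log (1 / ε) := ⟨_, rfl⟩
  have hML : M ≤ L := by
    rw [hLdef, Real.le_log_iff_exp_le (by positivity), le_div_iff₀ hε]
    calc Real.exp M * ε ≤ Real.exp M * Real.exp (-M) :=
          mul_le_mul_of_nonneg_left h2 (Real.exp_pos _).le
      _ = 1 := by rw [← Real.exp_add]; simp
  have hL3 : 3 ≤ L := by linarith
  obtain ⟨T, hTdef⟩ : ∃ T : ℝ, T = Real.log (2 / ε) := ⟨_, rfl⟩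
  have hTL : T = Real.log 2 + L := by
    rw [hTdef, hLdef, ← Real.log_mul (by norm_num) (by positivity)]
    congr 1
    ring
  have hl2 : 0 < Real.log 2 := Real.log_pos (by norm_num)
  have hl2' : Real.log 2 < 1 := by
    have := Real.log_two_lt_d9
    linarith
  have hT1 : L ≤ T := by linarith
  have hT2 : T ≤ 2 * L := by linarith
  have hT0 : 0 < T := by linarith
  have hL0 : 0 < L := by linarith
  obtain ⟨η, hη⟩ : ∃ η : ℝ, η = 2 * s ^ 2 / T := ⟨_, rfl⟩
  have hη0 : 0 < η := by rw [hη]; positivity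
  have hsq0 : 0 < Real.sqrt η := Real.sqrt_pos.2 hη0
  have hηL : s ^ 2 / L ≤ η := by
    rw [hη, div_le_div_iff₀ hL0 hT0]
    nlinarith [sq_nonneg s, sq_pos_of_pos hs]
  refine ⟨η, ⌈4 / Real.sqrt η⌉₊, hη0, ?_, ?_, ?_, ?_, ?_⟩
  · rw [hη, div_le_iff₀ hT0]
    have h3 : 2 * s ^ 2 / r ≤ T := by linarith
    rw [div_le_iff₀ hr] at h3
    linarith
  · have h4 : 2 * s ^ 2 / η = T := by
      rw [hη]
      field_simp
    rw [h4, Real.exp_neg, hTdef, Real.exp_log (by positivity)]
    rw [inv_div]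
  · have h5 := Nat.le_ceil (4 / Real.sqrt η)
    rw [div_le_iff₀ hsq0] at h5
    linarith
  · exact Nat.one_le_iff_ne_zero.2 (Nat.ceil_pos.2 (by positivity)).ne'
  · rw [← hLdef]
    have hq : ((⌈4 / Real.sqrt η⌉₊ : ℕ) : ℝ) < 4 / Real.sqrt η + 1 :=
      Nat.ceil_lt_add_one (by positivity)
    have hq1 : (1 : ℝ) ≤ ((⌈4 / Real.sqrt η⌉₊ : ℕ) : ℝ) := by
      exact_mod_cast Nat.one_le_iff_ne_zero.2 (Nat.ceil_pos.2 (by positivity)).ne'
    generalize ((⌈4 / Real.sqrt η⌉₊ : ℕ) : ℝ) = q at hq hq1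
    -- the square root is at least `s / L`
    have hsL : s / L ≤ Real.sqrt η := by
      apply Real.le_sqrt_of_sq_le
      refine le_trans ?_ hηL
      rw [div_pow, div_le_div_iff₀ (by positivity) hL0]
      have : L ≤ L ^ 2 := by nlinarith
      nlinarith [sq_pos_of_pos hs]
    have h6 : 4 / Real.sqrt η ≤ 4 / s * L := by
      rw [div_le_iff₀ hsq0]
      have h7 : 4 / s * L * (s / L) ≤ 4 / s * L * Real.sqrt η :=
        mul_le_mul_of_nonneg_left hsL (by positivity)
      have h8 : 4 / s * L * (s / L) = 4 := by field_simp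
      linarith
    have h9 : 2 * q ≤ L ^ 2 := by
      have h10 : 2 * q ≤ 8 / s * L + 2 := by
        have : 8 / s * L = 2 * (4 / s * L) := by ring
        linarith
      have h11 : 8 / s + 2 ≤ L := by linarith
      nlinarith
    have hlq : Real.log (2 * q) ≤ 2 * Real.log L := by
      have h12 : Real.log (2 * q) ≤ Real.log (L ^ 2) :=
        Real.log_le_log (by linarith) h9
      rw [Real.log_pow] at h12
      exact_mod_cast h12
    have hlq0 : 0 < Real.log (2 * q) := Real.log_pos (by linarith)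
    have hlL : 0 < Real.log L := Real.log_pos (by linarith)
    calc s ^ 2 / 256 / (L * Real.log L) = (s ^ 2 / L) / (256 * Real.log L) := by
          field_simp
      _ ≤ η / (256 * Real.log L) := by gcongr
      _ ≤ η / (128 * Real.log (2 * q)) := by
          apply div_le_div_of_nonneg_left hη0.le (by positivity)
          linarith

end Pool.Agent.U208.SI
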